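import Pool.Agent.H8.WP.Targets

/-!
# Ranks of a relation which is a chain on each of two sides
-/

set_option autoImplicit false

namespace Pool.Agent.H32.WP

open Pool.Agent.H69.Sp Pool.Agent.H69.Mt Pool.Agent.H16.TO Pool.Agent.H8.PL Pool.Agent.H8.DI
  Pool.Agent.H8.WP

theorem pf_rk : W_RK := by
  classical
  intro V hV s lt irr trans tot
  have : Fintype V := Fintype.ofFinite V
  set rk : V → ℕ := fun x => (Finset.univ.filter (fun y => s y = s x ∧ lt y x)).card with hrk
  set M : Bool → ℕ := fun b => (Finset.univ.filter (fun x => s x = b)).card with hM
  have hlt : ∀ x y, s x = s y → lt x y → rk x < rk y := by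
    intro x y hs h
    apply Finset.card_lt_card
    rw [Finset.ssubset_iff_of_subset]
    · refine ⟨x, ?_, ?_⟩
      · simp [hs, h]
      · simp [irr]
    · intro z hz
      simp only [Finset.mem_filter, Finset.mem_univ, true_and] at hz ⊢
      exact ⟨hz.1.trans hs, trans _ _ _ hz.2 h⟩
  have hinj : ∀ x y, s x = s y → rk x = rk y → x = y := by
    intro x y hs h
    rcases tot x y hs with h1 | h1 | h1
    · exact h1
    · have := hlt x y hs h1
      omega
    · have := hlt y x hs.symm h1
      omega
  have hltM : ∀ x, rk x < M (s x) := by
    intro x
    apply Finset.card_lt_card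
    rw [Finset.ssubset_iff_of_subset]
    · refine ⟨x, ?_, ?_⟩
      · simp
      · simp [irr]
    · intro z hz
      simp only [Finset.mem_filter, Finset.mem_univ, true_and] at hz ⊢
      exact hz.1
  refine ⟨rk, M, ?_⟩
  constructor
  · exact hltM
  · intro b i hi
    have himg : (Finset.univ.filter (fun x => s x = b)).image rk = Finset.range (M b) := by
      apply Finset.eq_of_subset_of_card_le
      · intro j hj
        simp only [Finset.mem_image, Finset.mem_filter, Finset.mem_univ, true_and] at hj
        obtain ⟨x, hx, rfl⟩ := hj
        rw [Finset.mem_range, ← hx]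
        exact hltM x
      · rw [Finset.card_range, Finset.card_image_of_injOn]
        intro x hx y hy h
        simp only [Finset.coe_filter, Finset.mem_univ, true_and, Set.mem_ofPred_eq] at hx hy
        exact hinj x y (hx.trans hy.symm) h
    have : i ∈ (Finset.univ.filter (fun x => s x = b)).image rk := by
      rw [himg, Finset.mem_range]
      exact hi
    simp only [Finset.mem_image, Finset.mem_filter, Finset.mem_univ, true_and] at this
    exact this
  · intro x y hs
    constructor
    · exact hlt x y hs
    · intro h
      rcases tot x y hs with h1 | h1 | h1
      · rw [h1] at h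
        exact absurd h (lt_irrefl _)
      · exact h1
      · have := hlt y x hs.symm h1
        omega
  · exact hinj
  · intro x
    refine ⟨(Finset.univ.filter (fun y => s y ≠ s x ∧ lt y x)).card, ?_⟩
    intro y hy
    constructor
    · intro h
      apply Finset.card_lt_card
      rw [Finset.ssubset_iff_of_subset]
      · refine ⟨y, ?_, ?_⟩
        · simp [hy, h]
        · simp [irr]
      · intro z hz
        simp only [Finset.mem_filter, Finset.mem_univ, true_and] at hz ⊢
        exact ⟨by rw [hz.1]; exact hy, trans _ _ _ hz.2 h⟩
    · intro h
      by_contra hn
      have hle : (Finset.univ.filter (fun y => s y ≠ s x ∧ lt y x)).card ≤ rk y := by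
        apply Finset.card_le_card
        intro z hz
        simp only [Finset.mem_filter, Finset.mem_univ, true_and] at hz ⊢
        have hzy : s z = s y := by
          have h1 := hz.1
          revert h1 hy
          cases s z <;> cases s y <;> cases s x <;> simp
        refine ⟨hzy, ?_⟩
        rcases tot z y hzy with h1 | h1 | h1
        · rw [h1] at hz
          exact absurd hz.2 hn
        · exact h1
        · exact absurd (trans _ _ _ h1 hz.2) hn
      omega
  · intro x
    refine ⟨(Finset.univ.filter (fun y => s y ≠ s x ∧ ¬ lt x y)).card, ?_⟩
    intro y hy
    constructor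
    · intro h
      apply Finset.card_le_card
      intro z hz
      simp only [Finset.mem_filter, Finset.mem_univ, true_and] at hz ⊢
      have hzy : s z = s y := by
        have h1 := hz.1
        revert h1 hy
        cases s z <;> cases s y <;> cases s x <;> simp
      refine ⟨hzy, ?_⟩
      rcases tot z y hzy with h1 | h1 | h1
      · rw [h1] at hz
        exact absurd h hz.2
      · exact h1
      · exact absurd (trans _ _ _ h h1) hz.2
    · intro h
      by_contra hn
      have hlt' : rk y < (Finset.univ.filter (fun y => s y ≠ s x ∧ ¬ lt x y)).card := by
        apply Finset.card_lt_card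
        rw [Finset.ssubset_iff_of_subset]
        · refine ⟨y, ?_, ?_⟩
          · simp [hy, hn]
          · simp [irr]
        · intro z hz
          simp only [Finset.mem_filter, Finset.mem_univ, true_and] at hz ⊢
          exact ⟨by rw [hz.1]; exact hy, fun h1 => hn (trans _ _ _ h1 hz.2)⟩
      omega
  · rw [Nat.card_eq_fintype_card, ← Finset.card_univ,
      ← Finset.card_filter_add_card_filter_not (s := (Finset.univ : Finset V)) (fun x => s x = true)]
    congr 1
    apply congrArg
    ext x
    simp

end Pool.Agent.H32.WP
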