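import Pool.Agent.H8.WP.Targets

/-!
# The successor relation on the side `false`
-/

set_option autoImplicit false

namespace Pool.Agent.H32.WP

open Pool.Agent.H69.Sp Pool.Agent.H69.Mt Pool.Agent.H16.TO Pool.Agent.H8.PL Pool.Agent.H8.DI
  Pool.Agent.H8.WP

theorem pf_su : W_SU := by
  intro V Q _ _ U Hh Vv st lt S I D F G rk M hP hR
  have hlti : ∀ x y, (st x).s = (st y).s → (lt x y ↔ rk x < rk y) := hR.lti
  have hM0 : 0 < M false := by
    obtain ⟨z⟩ := (inferInstance : Nonempty V)
    by_cases hz : (st z).s = false
    · have h1 : rk z < M (st z).s := hR.ltM z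
      rw [hz] at h1
      omega
    · have hz' : (st z).s = true := by simpa using hz
      obtain ⟨x, hx, _⟩ := hP.ii' z hz'
      have h1 : rk x < M (st x).s := hR.ltM x
      rw [hx.1] at h1
      omega
  have hmx : ∀ x, (st x).s = false → (mx (st x) ↔ rk x + 1 = M false) := by
    intro x hx
    have hxM : rk x < M (st x).s := hR.ltM x
    rw [hx] at hxM
    constructor
    · intro h
      by_contra hne
      obtain ⟨y, hy, hy2⟩ := hR.sur false (rk x + 1) (by omega)
      have hs : (st x).s = (st y).s := by rw [hx]; exact hy.symm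
      exact hP.mxx x y hs h ((hlti x y hs).2 (by omega))
    · intro h
      by_contra hne
      obtain ⟨y, hy, _⟩ := hP.su x hx hne
      have hs : (st x).s = (st y).s := by rw [hx]; exact hy.1.symm
      have h1 := (hlti x y hs).1 (hP.sl x y hx hy.1 hy.2).1
      have h2 : rk y < M (st y).s := hR.ltM y
      rw [hy.1] at h2
      omega
  have hmn : ∀ x, (st x).s = false → (mn (st x) ↔ rk x = 0) := by
    intro x hx
    constructor
    · intro h
      by_contra hne
      obtain ⟨y, hy, hy2⟩ := hR.sur false 0 hM0
      have hs : (st y).s = (st x).s := by rw [hx]; exact hy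
      exact hP.mnn y x hs h ((hlti y x hs).2 (by omega))
    · intro h
      by_contra hne
      obtain ⟨y, hy, _⟩ := hP.su' x hx hne
      have hs : (st y).s = (st x).s := by rw [hx]; exact hy.1
      have h1 := (hlti y x hs).1 (hP.sl y x hy.1 hx hy.2).1
      omega
  have hS : ∀ k x y, (st x).s = false → (st y).s = false → rk y = k + 1 → S x y → rk x = k := by
    intro k
    induction k using Nat.strong_induction_on with
    | _ k ih =>
      intro x y hx hy hyk h
      have hs : (st x).s = (st y).s := by rw [hx, hy]
      have hlt := (hP.sl x y hx hy h).1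
      have h1 := (hlti x y hs).1 hlt
      by_contra hne
      have hj : rk x < k := by omega
      have hyM : rk y < M (st y).s := hR.ltM y
      rw [hy] at hyM
      obtain ⟨y', hy', hy'2⟩ := hR.sur false (rk x + 1) (by omega)
      have hy'f : (st y').s = false := hy'
      have hnmn : ¬ mn (st y') := by
        rw [hmn y' hy'f]
        omega
      obtain ⟨x', hx', _⟩ := hP.su' y' hy'f hnmn
      have h2 := ih (rk x) hj x' y' hx'.1 hy'f hy'2 hx'.2
      have h3 : x' = x := hR.inj x' x (by
        show (st x').s = (st x).s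
        rw [hx'.1, hx]) h2
      rw [h3] at hx'
      have hnmx : ¬ mx (st x) := fun hm => hP.mxx x y hs hm hlt
      obtain ⟨w, _, hw⟩ := hP.su x hx hnmx
      have h4 := hw y ⟨hy, h⟩
      have h5 := hw y' ⟨hy'f, hx'.2⟩
      have h6 : y = y' := h4.trans h5.symm
      rw [h6] at hyk
      omega
  refine ⟨hM0, fun x hx => ⟨hmx x hx, hmn x hx⟩, ?_⟩
  intro x y hx hy
  constructor
  · intro h
    have hs : (st x).s = (st y).s := by rw [hx, hy]
    have h1 := (hlti x y hs).1 (hP.sl x y hx hy h).1
    have h2 := hS (rk y - 1) x y hx hy (by omega) h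
    omega
  · intro h
    have hnmn : ¬ mn (st y) := by
      rw [hmn y hy]
      omega
    obtain ⟨x', hx', _⟩ := hP.su' y hy hnmn
    have h2 := hS (rk x) x' y hx'.1 hy h hx'.2
    have h3 : x' = x := hR.inj x' x (by
      show (st x').s = (st x).s
      rw [hx'.1, hx]) h2
    rw [← h3]
    exact hx'.2

end Pool.Agent.H32.WP
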